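import Pool.Agent.H753R3.LM.T1
import Pool.Agent.H218R3.LM_T5
import Pool.Agent.H753R3.LM.Asm4
import Pool.Agent.H885R3.LM_T0
import Pool.Agent.H421R3.LM_T2
import Pool.Agent.H924R3.LM.T3
import Pool.Agent.H943R3.LM_T4
import Pool.Agent.H428R3.LM_T6

/-!
# Complete locally minimal abelian groups: chains of neighbourhoods are eventually almost covered

The proof of `tb0` is the proof of `Pool.Agent.H753R3.LM.main_thm` (the starting library), which
uses one chain of neighbourhoods; here the chain is arbitrary.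
-/

set_option autoImplicit false

namespace Q217.LM

open Topology Filter Set Pool.Agent.H753R3.LM

/-- Every chain of neighbourhoods of zero inside a neighbourhood witnessing local minimality is
eventually covered by finitely many translates of any given neighbourhood of zero. -/
theorem tb0 (hT2 : TaskT2) (hT3 : TaskT3) (hT4 : TaskT4) (hT5 : TaskT5)
    (hT6 : TaskT6)
    (G : Type) [AddCommGroup G] [UniformSpace G] [IsUniformAddGroup G] [T2Space G]
    [CompleteSpace G] (V₀ : Set G)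
    (hmin : ∀ σ : TopologicalSpace G,
          @IsTopologicalAddGroup G σ _ → @T2Space G σ →
          (UniformSpace.toTopologicalSpace : TopologicalSpace G) ≤ σ →
          V₀ ∈ @nhds G σ 0 → σ = (UniformSpace.toTopologicalSpace : TopologicalSpace G))
    (V : ℕ → Set G) (hV : Chain V) (hVn : ∀ n, V n ∈ 𝓝 (0 : G)) (hV0 : V 0 ⊆ V₀)
    (Us : Set G) (hUs : Us ∈ 𝓝 (0 : G)) : ∃ n, Sml (V n) Us := by
  classical
  by_contra hUs2
  push Not at hUs2
  -- the set of good integers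
  set D : Set ℤ := {d | 0 ≤ d ∧ ∃ W ∈ 𝓝 (0 : G), ∃ k, Far V d W k} with hD
  have hex : ∀ U ∈ 𝓝 (0 : G), ∃ d ∈ D, ∃ n, Sml (mul d (V n)) U := by
    intro U hU
    obtain ⟨d, hd, W, hW, k, n, h1, h2⟩ := hT2 G V hV U hU
    exact ⟨d, ⟨hd, W, hW, k, h2⟩, n, h1⟩
  have hsubY : ∀ (d : ℤ) (W : Set G) (k : ℕ), W ⊆ Y W d (V k) := by
    intro d W k w hw
    exact ⟨w, hw, 0, hV.zero k, by simp⟩
  have hdir : ∀ d₁ ∈ D, ∀ d₂ ∈ D, ∀ U ∈ 𝓝 (0 : G), ∃ d ∈ D, d₁ ∣ d ∧ d₂ ∣ d ∧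
      ∃ n, Sml (mul d (V n)) U := by
    rintro d₁ ⟨_, W₁, hW₁, k₁, hF₁⟩ d₂ ⟨_, W₂, hW₂, k₂, hF₂⟩ U hU
    obtain ⟨d, hd, n, hn⟩ := hex (U ∩ (W₁ ∩ W₂)) (inter_mem hU (inter_mem hW₁ hW₂))
    refine ⟨d, hd, ?_, ?_, n, hn.mono inter_subset_left⟩
    · by_contra h
      exact hF₁ d h n (hn.mono ((inter_subset_right.trans inter_subset_left).trans (hsubY _ _ _)))
    · by_contra h
      exact hF₂ d h n (hn.mono ((inter_subset_right.trans inter_subset_right).trans (hsubY _ _ _)))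
  -- the special integer
  obtain ⟨ds, hds, ns, hns⟩ := hex Us hUs
  have hds1 : ¬ ds ∣ 1 := by
    intro h
    have h1 : ds = 1 := Int.eq_one_of_dvd_one hds.1 h
    rw [h1] at hns
    apply hUs2 ns
    obtain ⟨F, hF⟩ := hns
    exact ⟨F, fun x hx => hF x ⟨x, hx, (one_smul ℤ x).symm⟩⟩
  obtain ⟨C, hC, hlim, h0⟩ := hT3 G V hV D ⟨ds, hds⟩ hdir
  -- choose the scales
  have hch : ∀ d : ℤ, ∃ (W : Set G) (k : ℕ), d ∈ D → W ∈ 𝓝 (0 : G) ∧ Far V d W k := by
    intro d
    by_cases hd : d ∈ D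
    · obtain ⟨_, W, hW, k, hF⟩ := hd
      exact ⟨W, k, fun _ => ⟨hW, hF⟩⟩
    · exact ⟨univ, 0, fun h => absurd h hd⟩
  choose W k hWk using hch
  have hch2 : ∀ d : ℤ, ∃ W' : Set G, d ∈ D → W' ∈ 𝓝 (0 : G) ∧
      ∀ x ∈ W', ∀ y ∈ W', x - y ∈ W d := by
    intro d
    by_cases hd : d ∈ D
    · obtain ⟨W', hW', hW'2⟩ := nhds_half_sub (hWk d hd).1
      exact ⟨W', fun _ => ⟨hW', hW'2⟩⟩
    · exact ⟨univ, fun h => absurd h hd⟩
  choose W' hW' using hch2
  obtain ⟨z, hz, hgen⟩ := hT4 G V hV D W W' k (fun d hd => (hWk d hd).2)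
    (fun d hd => (hW' d hd).2) (fun j => 3 * j + 2)
  have hhaus := haus hT5 hT6 hV hz D W' k (fun d hd => (hW' d hd).1) hgen C hC hlim h0
  obtain ⟨σ, hσ1, hσ2, hσ3, hσ4, -⟩ := Pool.Agent.H862R3.LMT7.strong G (ℕ →₀ ℤ) (pr z) BB
    ⟨_, 0, ∅, 1, one_pos, rfl⟩ BB_zero BB_half BB_inter hhaus
  have hσV : V₀ ∈ @nhds G σ 0 := by
    rw [hσ4]
    refine ⟨V 1, hVn 1, Bs 1 ∅ 1, ⟨1, ∅, 1, one_pos, rfl⟩, fun o ho x hx => hV0 ?_⟩
    refine hV.add 0 o ho _ ?_
    exact pr_mem hV hz 1 x (fun j => ⟨small_of_le (Bs_abs hx) j, fun hj => Bs_supp' hx j hj⟩)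
  have hσeq := hmin σ hσ1 hσ2 hσ3 hσV
  have hW's : W' ds ∈ @nhds G σ 0 := by
    rw [hσeq]
    exact (hW' ds hds).1
  rw [hσ4] at hW's
  obtain ⟨O, hO, b, ⟨t, S, δ, hδ, rfl⟩, hOb⟩ := hW's
  -- two close terms of the sequence
  obtain ⟨i, j, hij, hi, hclose⟩ : ∃ i j : ℕ, i < j ∧ ds.natAbs + 2 ^ t + 1 ≤ i ∧
      ∀ Ψ ∈ S, ‖Ψ (Finsupp.single j 1 - Finsupp.single i 1)‖ < δ := by
    let u : ℕ → (S → AddCircle (1 : ℝ)) := fun n Ψ => Ψ.1 (Finsupp.single n 1)
    obtain ⟨a, -, φ, hφ, hlim'⟩ := isCompact_univ.tendsto_subseq (x := u) (fun n => mem_univ _)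
    rw [Metric.tendsto_atTop] at hlim'
    obtain ⟨N, hN⟩ := hlim' (δ / 2) (by positivity)
    set M := max N (ds.natAbs + 2 ^ t + 1) with hM
    refine ⟨φ M, φ (M + 1), hφ (Nat.lt_succ_self M), ?_, ?_⟩
    · exact (le_max_right N _).trans (hφ.id_le M)
    · intro Ψ hΨ
      have h1 := hN M (le_max_left _ _)
      have h2 := hN (M + 1) ((le_max_left _ _).trans (Nat.le_succ _))
      have h3 : dist (u (φ (M + 1))) (u (φ M)) < δ := by
        have := dist_triangle_right (u (φ (M + 1))) (u (φ M)) a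
        simp only [Function.comp] at h1 h2
        linarith
      have h4 := (dist_pi_lt_iff hδ).mp h3 ⟨Ψ, hΨ⟩
      rw [map_sub]
      rw [dist_eq_norm] at h4
      exact h4
  have hx : (Finsupp.single j 1 - Finsupp.single i 1 : ℕ →₀ ℤ) ∈ Bs t S δ := by
    refine ⟨fun l => ?_, hclose⟩
    have h2t : (2 : ℤ) ^ t ≤ i := by
      have : 2 ^ t ≤ i := by omega
      exact_mod_cast this
    rw [Finsupp.sub_apply, Finsupp.single_apply, Finsupp.single_apply]
    by_cases h1 : j = l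
    · have h2 : ¬ i = l := by omega
      rw [if_pos h1, if_neg h2]
      simp only [sub_zero, abs_one, mul_one]
      have : (i : ℤ) ≤ l := by exact_mod_cast (by omega : i ≤ l)
      linarith
    · by_cases h2 : i = l
      · rw [if_neg h1, if_pos h2]
        simp only [zero_sub, abs_neg, abs_one, mul_one]
        have : (i : ℤ) ≤ l := by exact_mod_cast (by omega : i ≤ l)
        linarith
      · rw [if_neg h1, if_neg h2]
        simp
  have hmem := hOb 0 (@mem_of_mem_nhds G UniformSpace.toTopologicalSpace 0 O hO) _ hx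
  have hval : pr z (Finsupp.single j 1 - Finsupp.single i 1) = z j - z i := by
    rw [map_sub]
    show Finsupp.linearCombination ℤ z _ - Finsupp.linearCombination ℤ z _ = _
    rw [Finsupp.linearCombination_single, Finsupp.linearCombination_single, one_smul, one_smul]
  rw [zero_add, hval] at hmem
  have hi1 : ds.natAbs ≤ i := (Nat.le_add_right _ _).trans ((Nat.le_add_right _ _).trans hi)
  have hi2 : 1 ≤ i := (Nat.le_add_left 1 _).trans hi
  have hj1 : ds.natAbs ≤ j := hi1.trans hij.le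
  have hj2 : 1 ≤ j := hi2.trans hij.le
  refine hgen j ds hds ?_ 1 ?_ hds1 (fun l => if l = i then 1 else 0) ?_ ?_
  · rw [Int.abs_eq_natAbs]
    exact_mod_cast hj1
  · rw [abs_one]
    exact_mod_cast hj2
  · intro l hl
    by_cases h : l = i
    · simp only [h, if_true, abs_one]
      exact_mod_cast hi2
    · simp [h]
  · have hsum : ∑ l ∈ Finset.range j, (if l = i then (1 : ℤ) else 0) • z l = z i := by
      simp only [ite_smul, one_smul, zero_smul]
      rw [Finset.sum_ite_eq' (Finset.range j) i z, if_pos (Finset.mem_range.mpr hij)]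
    rw [one_smul, hsum]
    exact hsubY ds (W' ds) _ hmem


theorem tb (G : Type) [AddCommGroup G] [UniformSpace G] [IsUniformAddGroup G] [T2Space G]
    [CompleteSpace G] (V₀ : Set G)
    (hmin : ∀ σ : TopologicalSpace G,
          @IsTopologicalAddGroup G σ _ → @T2Space G σ →
          (UniformSpace.toTopologicalSpace : TopologicalSpace G) ≤ σ →
          V₀ ∈ @nhds G σ 0 → σ = (UniformSpace.toTopologicalSpace : TopologicalSpace G))
    (V : ℕ → Set G) (hV : Chain V) (hVn : ∀ n, V n ∈ 𝓝 (0 : G)) (hV0 : V 0 ⊆ V₀)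
    (U : Set G) (hU : U ∈ 𝓝 (0 : G)) : ∃ n, Sml (V n) U :=
  tb0 Pool.Agent.H421R3.LMT2.taskT2 taskT3
    (Pool.Agent.H943R3.LM.taskT4 taskT1)
    Pool.Agent.H218R3.LM.taskT5 Pool.Agent.H428R3.LMT6.taskT6 G V₀ hmin V hV hVn hV0 U hU

end Q217.LM
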