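import Mathlib
import Pool.Agent.Q217.LM.TB

/-!
# Local minimality of quotients by compact subgroups
-/

set_option autoImplicit false

namespace Q217.LM

open Topology Filter Set Pool.Agent.H753R3.LM
open scoped Pointwise

/-- An abelian topological group `(G, τ)` is locally minimal if it has a neighbourhood `V` of zero
such that every Hausdorff group topology coarser than `τ`, in which `V` is a neighbourhood of zero,
is equal to `τ`. -/
def LocallyMinimal (G : Type) [AddCommGroup G] [τ : TopologicalSpace G] : Prop :=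
  ∃ V ∈ 𝓝 (0 : G), ∀ σ : TopologicalSpace G, @IsTopologicalAddGroup G σ _ → @T2Space G σ →
    τ ≤ σ → V ∈ @nhds G σ 0 → σ = τ

/-- chains of invariant neighbourhoods near the subgroup `L` are eventually almost covered. -/
def TBP {G : Type} [AddCommGroup G] [TopologicalSpace G] (L : AddSubgroup G) : Prop :=
  ∃ W : Set G, IsOpen W ∧ (L : Set G) ⊆ W ∧ ∀ V : ℕ → Set G, Chain V → (∀ n, V n ∈ 𝓝 (0 : G)) →
    (∀ n, ∀ x ∈ V n, ∀ l ∈ L, x + l ∈ V n) → V 0 ⊆ W → ∀ U ∈ 𝓝 (0 : G), ∃ n, Sml (V n) U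

/-- the limit group of an eventually almost covered chain. -/
theorem exists_limit {G : Type} [AddCommGroup G] [UniformSpace G] [IsUniformAddGroup G]
    [CompleteSpace G] (V : ℕ → Set G) (hV : Chain V) (hn : ∀ n, V n ∈ 𝓝 (0 : G))
    (hS : ∀ U ∈ 𝓝 (0 : G), ∃ n, Sml (V n) U) :
    ∃ K : AddSubgroup G, (∀ x, x ∈ K ↔ ∀ n, x ∈ V n) ∧ IsClosed (K : Set G) ∧
      IsCompact (K : Set G) ∧
      ∀ U ∈ 𝓝 (0 : G), ∃ m, ∀ x ∈ V m, ∃ k ∈ K, x - k ∈ U := by
  classical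
  have hmono : ∀ n, V (n + 1) ⊆ V n := fun n x hx => by
    simpa using hV.add n x hx 0 (hV.zero _)
  have hanti : Antitone V := antitone_nat_of_succ_le hmono
  have hcl : ∀ (n : ℕ) (x : G), (∀ U ∈ 𝓝 x, ∃ a ∈ V (n + 1), a ∈ U) → x ∈ V n := by
    intro n x hx
    have h1 : {y : G | y - x ∈ V (n + 1)} ∈ 𝓝 x := by
      have h2 : Tendsto (fun y : G => y - x) (𝓝 x) (𝓝 0) := by
        have h3 : Continuous (fun y : G => y - x) := by fun_prop
        have h4 := h3.tendsto x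
        rwa [sub_self] at h4
      exact h2 (hn (n + 1))
    obtain ⟨a, ha, hax⟩ := hx _ h1
    have h5 := hV.add n a ha _ (hV.neg _ _ hax)
    simpa using h5
  let K : AddSubgroup G :=
    { carrier := ⋂ n, V n
      zero_mem' := mem_iInter.2 fun n => hV.zero n
      add_mem' := fun {x y} hx hy => mem_iInter.2 fun n =>
        hV.add n x (mem_iInter.1 hx _) y (mem_iInter.1 hy _)
      neg_mem' := fun {x} hx => mem_iInter.2 fun n => hV.neg n x (mem_iInter.1 hx n) }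
  have hK : ∀ x : G, x ∈ K ↔ ∀ n, x ∈ V n := fun x => mem_iInter
  have hKV : ∀ n, (K : Set G) ⊆ V n := fun n x hx => (hK x).1 hx n
  have hclosed : IsClosed (K : Set G) := by
    apply isClosed_of_closure_subset
    intro x hx
    refine (hK x).2 fun n => hcl n x fun U hU => ?_
    obtain ⟨a, ha, haK⟩ := mem_closure_iff_nhds.1 hx U hU
    exact ⟨a, hKV _ haK, ha⟩
  have hcover : ∀ U ∈ 𝓝 (0 : G), ∃ n, ∃ t : Set G, t.Finite ∧ V n ⊆ ⋃ y ∈ t, y +ᵥ U := by
    intro U hU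
    obtain ⟨n, F, hF⟩ := hS U hU
    refine ⟨n, F, F.finite_toSet, fun x hx => ?_⟩
    obtain ⟨f, hf, hfx⟩ := hF x hx
    refine mem_iUnion₂.2 ⟨f, hf, ?_⟩
    rw [mem_vadd_set]
    exact ⟨x - f, hfx, by simp⟩
  have hcomp : IsCompact (K : Set G) := by
    refine TotallyBounded.isCompact_of_isClosed ?_ hclosed
    rw [totallyBounded_iff_subset_finite_iUnion_nhds_zero]
    intro U hU
    obtain ⟨n, t, ht, hs⟩ := hcover U hU
    exact ⟨t, ht, (hKV n).trans hs⟩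
  refine ⟨K, hK, hclosed, hcomp, ?_⟩
  intro U hU
  by_contra hcon
  push Not at hcon
  choose x hxV hx using hcon
  have htb : TotallyBounded (range x) := by
    rw [totallyBounded_iff_subset_finite_iUnion_nhds_zero]
    intro U' hU'
    obtain ⟨n, t, ht, hs⟩ := hcover U' hU'
    refine ⟨t ∪ x '' (Finset.range n), ht.union ((Finset.range n).finite_toSet.image x), ?_⟩
    rintro _ ⟨m, rfl⟩
    rcases lt_or_ge m n with h | h
    · refine mem_iUnion₂.2 ⟨x m, Or.inr ⟨m, by simpa using h, rfl⟩, ?_⟩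
      rw [mem_vadd_set]
      exact ⟨0, mem_of_mem_nhds hU', by simp⟩
    · obtain ⟨y, hy, hxy⟩ := mem_iUnion₂.1 (hs (hanti h (hxV m)))
      exact mem_iUnion₂.2 ⟨y, Or.inl hy, hxy⟩
  have hc : IsCompact (closure (range x)) :=
    htb.closure.isCompact_of_isClosed isClosed_closure
  obtain ⟨z, -, hz⟩ := hc.exists_mapClusterPt (f := atTop) (u := x)
    (le_principal_iff.2 (mem_map.2 (Eventually.of_forall fun m =>
      subset_closure (mem_range_self m))))
  have hfr := fun s hs => (mapClusterPt_iff_frequently.1 hz) s hs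
  have hzK : z ∈ K := by
    refine (hK z).2 fun n => hcl n z fun U' hU' => ?_
    obtain ⟨m, hm, hmU⟩ := (frequently_atTop.1 (hfr U' hU')) (n + 1)
    exact ⟨x m, hanti hm (hxV m), hmU⟩
  have h1 : {y : G | y - z ∈ U} ∈ 𝓝 z := by
    have h2 : Tendsto (fun y : G => y - z) (𝓝 z) (𝓝 0) := by
      have h3 : Continuous (fun y : G => y - z) := by fun_prop
      have h4 := h3.tendsto z
      rwa [sub_self] at h4
    exact h2 hU
  obtain ⟨m, hm⟩ := (hfr _ h1).exists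
  exact hx m z hzK hm

/-- the quotient by a compact subgroup with the property `TBP` is locally minimal. -/
theorem locMin_quot {G : Type} [AddCommGroup G] [UniformSpace G] [IsUniformAddGroup G]
    [CompleteSpace G] (K : AddSubgroup G) (hK : IsCompact (K : Set G)) (h : TBP K) :
    LocallyMinimal (G ⧸ K) := by
  classical
  obtain ⟨W, hWo, hKW, hW⟩ := h
  obtain ⟨O, hO, hOW⟩ := compact_open_separated_add_right hK hWo hKW
  let τq : TopologicalSpace (G ⧸ K) := QuotientAddGroup.instTopologicalSpace K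
  have hτq : @IsTopologicalAddGroup (G ⧸ K) τq _ := inferInstance
  have hcont : @Continuous G (G ⧸ K) _ τq ((↑) : G → G ⧸ K) := continuous_quot_mk
  have h0 : (@nhds (G ⧸ K) τq 0) = map ((↑) : G → G ⧸ K) (𝓝 (0 : G)) := by
    have := QuotientAddGroup.nhds_eq K (0 : G)
    rwa [QuotientAddGroup.mk_zero] at this
  have himg : ∀ D : Set G, IsCompact D → @IsCompact (G ⧸ K) τq (((↑) : G → G ⧸ K) '' D) :=
    fun D hD => hD.image hcont
  have hmk : ∀ {x y : G}, (x : G ⧸ K) = y → x - y ∈ K := by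
    intro x y hxy
    rw [← QuotientAddGroup.eq_zero_iff, QuotientAddGroup.mk_sub, hxy, sub_self]
  refine ⟨((↑) : G → G ⧸ K) '' O, ?_, ?_⟩
  · rw [h0]
    exact image_mem_map hO
  intro σ hσ1 hσ2 hσ3 hσV
  obtain ⟨A, hA, hAn, hA0⟩ := @exists_chain (G ⧸ K) _ σ hσ1 _ hσV
  have hle : @nhds (G ⧸ K) τq 0 ≤ @nhds (G ⧸ K) σ 0 := _root_.nhds_mono hσ3
  have hpre : ∀ S ∈ @nhds (G ⧸ K) σ 0, ((↑) : G → G ⧸ K) ⁻¹' S ∈ 𝓝 (0 : G) := by
    intro S hS
    have h1 := hle hS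
    rw [h0] at h1
    exact h1
  let V : ℕ → Set G := fun n => ((↑) : G → G ⧸ K) ⁻¹' (A n)
  have hVm : ∀ n x, x ∈ V n ↔ (x : G ⧸ K) ∈ A n := fun n x => Iff.rfl
  have hV : Chain V := by
    refine ⟨fun n => ?_, fun n x hx => ?_, fun n x hx y hy => ?_⟩
    · rw [hVm, QuotientAddGroup.mk_zero]
      exact hA.zero n
    · rw [hVm, QuotientAddGroup.mk_neg]
      exact hA.neg n _ hx
    · rw [hVm, QuotientAddGroup.mk_add]
      exact hA.add n _ hx _ hy
  have hVn : ∀ n, V n ∈ 𝓝 (0 : G) := fun n => hpre _ (hAn n)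
  have hinv : ∀ n, ∀ x ∈ V n, ∀ l ∈ K, x + l ∈ V n := by
    intro n x hx l hl
    rw [hVm, QuotientAddGroup.mk_add, (QuotientAddGroup.eq_zero_iff l).2 hl, add_zero]
    exact hx
  have hV0 : V 0 ⊆ W := by
    intro x hx
    obtain ⟨o, ho, hox⟩ := hA0 hx
    have h1 : x - o ∈ K := hmk hox.symm
    have h2 : x - o + o ∈ W := hOW (add_mem_add h1 ho)
    simpa using h2
  obtain ⟨N, hN1, hN2, hN3, hN4⟩ := exists_limit V hV hVn (hW V hV hVn hinv hV0)
  refine IsTopologicalAddGroup.ext hσ1 hτq (le_antisymm ?_ hle)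
  intro S hS
  change S ∈ @nhds (G ⧸ K) τq 0 at hS
  have hS' : ((↑) : G → G ⧸ K) ⁻¹' S ∈ 𝓝 (0 : G) := by
    rw [h0] at hS
    exact hS
  obtain ⟨U₀, hU₀, hU₀S⟩ := exists_nhds_zero_half hS'
  obtain ⟨U', hU'U, hU'o, hU'0⟩ := mem_nhds_iff.1 hU₀
  -- the compact set of points of `N` away from zero
  let D : Set G := (N : Set G) \ ((K : Set G) + U')
  have hD : IsCompact D := hN3.diff (hU'o.add_left)
  have hD' : @IsCompact (G ⧸ K) τq (((↑) : G → G ⧸ K) '' D) := himg D hD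
  have hD2 : @IsCompact (G ⧸ K) σ (((↑) : G → G ⧸ K) '' D) := by
    have h1 : @Continuous (G ⧸ K) (G ⧸ K) τq σ id := continuous_id_of_le hσ3
    have h2 := @IsCompact.image (G ⧸ K) (G ⧸ K) τq σ _ id hD' h1
    simpa using h2
  have hD3 : @IsClosed (G ⧸ K) σ (((↑) : G → G ⧸ K) '' D) :=
    @IsCompact.isClosed (G ⧸ K) σ hσ2 _ hD2
  have hD4 : (0 : G ⧸ K) ∉ (((↑) : G → G ⧸ K) '' D) := by
    rintro ⟨d, hd, hd0⟩
    apply hd.2
    have h1 : d ∈ K := (QuotientAddGroup.eq_zero_iff d).1 hd0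
    have h2 : d + 0 ∈ (K : Set G) + U' := add_mem_add h1 hU'0
    simpa using h2
  have hD5 : (((↑) : G → G ⧸ K) '' D)ᶜ ∈ @nhds (G ⧸ K) σ 0 :=
    hD3.isOpen_compl.mem_nhds hD4
  obtain ⟨W₁, hW₁, hW₁2⟩ := @nhds_half_sub (G ⧸ K) _ σ hσ1 _ hD5
  obtain ⟨m, hm⟩ := hN4 (U' ∩ ((↑) : G → G ⧸ K) ⁻¹' W₁)
    (inter_mem (hU'o.mem_nhds hU'0) (hpre _ hW₁))
  refine mem_of_superset (inter_mem hW₁ (hAn m)) ?_
  rintro y ⟨hy1, hy2⟩
  obtain ⟨x, rfl⟩ := QuotientAddGroup.mk_surjective y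
  obtain ⟨k, hk, hxk⟩ := hm x hy2
  have h1 : (k : G ⧸ K) ∈ (((↑) : G → G ⧸ K) '' D)ᶜ := by
    have h2 := hW₁2 _ hy1 _ hxk.2
    rw [QuotientAddGroup.mk_sub] at h2
    simpa using h2
  have h3 : k ∈ (K : Set G) + U' := by
    by_contra h4
    exact h1 ⟨k, ⟨hk, h4⟩, rfl⟩
  obtain ⟨κ, hκ, u, hu, hκu⟩ := h3
  have h5 : ((x - k + u : G) : G ⧸ K) ∈ S := hU₀S _ (hU'U hxk.1) _ (hU'U hu)
  have h6 : ((x - k + u : G) : G ⧸ K) = (x : G ⧸ K) := by
    have h7 : x - k + u = x - κ := by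
      rw [← hκu]
      simp only
      abel
    rw [h7, QuotientAddGroup.mk_sub, (QuotientAddGroup.eq_zero_iff κ).2 hκ, sub_zero]
  rwa [h6] at h5

end Q217.LM
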