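import Mathlib
import Pool.Agent.Q217.LM.Basic
import Pool.Agent.Q182.AMDefs

/-!
# Complete, locally GTG and locally minimal abelian groups are almost minimal
-/

set_option autoImplicit false

namespace Q217.LM

open Topology Filter Set Pool.Agent.H753R3.LM Q182
open scoped Pointwise

/-- A symmetric set `U` containing `0` is a GTG subset if the sets `(1/n)U`, `n ≥ 1`, form a base of
neighbourhoods of `0` for some (not necessarily Hausdorff) group topology. -/
def IsGTGSubset {G : Type} [AddCommGroup G] (U : Set G) : Prop :=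
  (0 : G) ∈ U ∧ (∀ x ∈ U, -x ∈ U) ∧ ∃ ρ : TopologicalSpace G, @IsTopologicalAddGroup G ρ _ ∧
    (@nhds G ρ 0).HasBasis (fun n : ℕ => 1 ≤ n) (fun n => divSet n U)

/-- A topological group is locally GTG if `0` has a base of neighbourhoods that are GTG subsets. -/
def LocallyGTG (G : Type) [AddCommGroup G] [TopologicalSpace G] : Prop :=
  ∀ W ∈ 𝓝 (0 : G), ∃ U ∈ 𝓝 (0 : G), U ⊆ W ∧ IsGTGSubset U

theorem divSet_anti {G : Type} [AddCommGroup G] (U : Set G) {m n : ℕ} (h : m ≤ n) :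
    divSet n U ⊆ divSet m U := fun _ hx k hk1 hk2 => hx k hk1 (hk2.trans h)

theorem divSet_nhds {G : Type} [AddCommGroup G] [TopologicalSpace G] [IsTopologicalAddGroup G]
    {U : Set G} (hU : U ∈ 𝓝 (0 : G)) (n : ℕ) : divSet n U ∈ 𝓝 (0 : G) := by
  have h1 : ∀ᶠ x in 𝓝 (0 : G), ∀ j ∈ Finset.range (n + 1), j • x ∈ U := by
    rw [Filter.eventually_all_finset]
    intro j _
    have h2 : Tendsto (fun x : G => j • x) (𝓝 0) (𝓝 0) := by
      have h3 : Continuous (fun x : G => j • x) := by fun_prop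
      have h4 := h3.tendsto 0
      rwa [smul_zero] at h4
    exact h2 hU
  filter_upwards [h1] with x hx j _ hj
  exact hx j (Finset.mem_range.2 (by omega))

/-- A compact Hausdorff abelian group is minimal. -/
theorem minimal_of_compact (C : Type) [AddCommGroup C] [t : TopologicalSpace C]
    [hC : IsTopologicalAddGroup C] [CompactSpace C] [hT : T2Space C] : IsMinimalGroup C := by
  have hcl : ∀ B : Set C, @IsClosed C t B → @IsCompact C t B := fun B hB => hB.isCompact
  refine ⟨hC, hT, fun s _ hs2 hle => le_antisymm ?_ hle⟩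
  intro A hA
  have h1 : @IsCompact C t Aᶜ := hcl _ (@IsOpen.isClosed_compl C t A hA)
  have h2 : @Continuous C C t s id := continuous_id_of_le hle
  have h3 := @IsCompact.image C C t s _ id h1 h2
  rw [image_id] at h3
  have h4 : @IsClosed C s Aᶜ := @IsCompact.isClosed C s hs2 _ h3
  exact (@isClosed_compl_iff C s A).1 h4

theorem gtg_step {G : Type} [AddCommGroup G] {U : Set G} (h : IsGTGSubset U) (n : ℕ)
    (hn : 1 ≤ n) : ∃ m : ℕ, 1 ≤ m ∧ ∀ x ∈ divSet m U, ∀ y ∈ divSet m U, x + y ∈ divSet n U := by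
  obtain ⟨-, -, ρ, hρ, hbas⟩ := h
  obtain ⟨W, hW, hW2⟩ := exists_nhds_zero_half (hbas.mem_of_mem hn)
  obtain ⟨m, hm, hmW⟩ := hbas.mem_iff.1 hW
  exact ⟨m, hm, fun x hx y hy => hW2 x (hmW hx) y (hmW hy)⟩

/-- If a neighbourhood witnessing local minimality of a complete abelian group contains a GTG
neighbourhood of zero, then the group has a compact subgroup with UFSS quotient. -/
theorem compact_ufss {G : Type} [AddCommGroup G] [UniformSpace G] [IsUniformAddGroup G] [T2Space G]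
    [CompleteSpace G] (V₀ : Set G)
    (hmin : ∀ σ : TopologicalSpace G, @IsTopologicalAddGroup G σ _ → @T2Space G σ →
      (UniformSpace.toTopologicalSpace : TopologicalSpace G) ≤ σ → V₀ ∈ @nhds G σ 0 →
      σ = (UniformSpace.toTopologicalSpace : TopologicalSpace G))
    (U : Set G) (hU : U ∈ 𝓝 (0 : G)) (hUV : U ⊆ V₀) (hGTG : IsGTGSubset U) :
    ∃ N : AddSubgroup G, IsCompact (N : Set G) ∧ IsUFSS (G ⧸ N) := by
  classical
  have hstep : ∀ n : ℕ, ∃ m : ℕ, 1 ≤ n → 1 ≤ m ∧ ∀ x ∈ divSet m U, ∀ y ∈ divSet m U,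
      x + y ∈ divSet n U := by
    intro n
    by_cases hn : 1 ≤ n
    · obtain ⟨m, hm1, hm2⟩ := gtg_step hGTG n hn
      exact ⟨m, fun _ => ⟨hm1, hm2⟩⟩
    · exact ⟨0, fun h => absurd h hn⟩
  have h0 := hGTG.1
  have hneg := hGTG.2.1
  choose f hf using hstep
  let ν : ℕ → ℕ := fun k => Nat.rec 1 (fun _ m => f m) k
  have hν1 : ∀ k, 1 ≤ ν k := by
    intro k
    induction k with
    | zero => exact le_refl 1
    | succ k ih => exact (hf (ν k) ih).1
  have hνs : ∀ k, ∀ x ∈ divSet (ν (k + 1)) U, ∀ y ∈ divSet (ν (k + 1)) U,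
      x + y ∈ divSet (ν k) U := fun k => (hf (ν k) (hν1 k)).2
  let V : ℕ → Set G := fun k => divSet (ν k) U
  have hV : Chain V := by
    refine ⟨fun n j _ _ => ?_, fun n x hx j hj1 hj2 => ?_, hνs⟩
    · rw [smul_zero]
      exact h0
    · rw [smul_neg]
      exact hneg _ (hx j hj1 hj2)
  have hVn : ∀ n, V n ∈ 𝓝 (0 : G) := fun n => divSet_nhds hU _
  have hV0U : V 0 ⊆ U := by
    intro x hx
    have h1 := hx 1 le_rfl le_rfl
    rwa [one_smul] at h1
  obtain ⟨N, hN1, hN2, hN3, hN4⟩ := exists_limit V hV hVn (fun O hO =>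
    tb G V₀ hmin V hV hVn (hV0U.trans hUV) O hO)
  refine ⟨N, hN3, inferInstance, inferInstance, ((↑) : G → G ⧸ N) '' (V 1), ?_, ?_, ?_⟩
  · have h1 : (𝓝 (0 : G ⧸ N)) = map ((↑) : G → G ⧸ N) (𝓝 (0 : G)) := by
      have := QuotientAddGroup.nhds_eq N (0 : G)
      rwa [QuotientAddGroup.mk_zero] at this
    rw [h1]
    exact image_mem_map (hVn 1)
  · rintro _ ⟨x, hx, rfl⟩
    exact ⟨-x, hV.neg 1 x hx, QuotientAddGroup.mk_neg N x⟩
  · have h1 : (𝓝 (0 : G ⧸ N)) = map ((↑) : G → G ⧸ N) (𝓝 (0 : G)) := by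
      have := QuotientAddGroup.nhds_eq N (0 : G)
      rwa [QuotientAddGroup.mk_zero] at this
    refine ⟨fun S => ⟨fun hS => ?_, ?_⟩⟩
    · rw [h1, mem_map] at hS
      obtain ⟨m, hm⟩ := hN4 _ hS
      refine ⟨ν m, hν1 m, ?_⟩
      intro y hy
      obtain ⟨x, rfl⟩ := QuotientAddGroup.mk_surjective y
      have hxV : x ∈ V m := by
        intro j hj1 hj2
        obtain ⟨v, hv, hvx⟩ := hy j hj1 hj2
        have h2 : j • x - v ∈ N := by
          rw [← QuotientAddGroup.eq_zero_iff, QuotientAddGroup.mk_sub, hvx]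
          simp
        have h3 : j • x - v ∈ V 1 := (hN1 _).1 h2 1
        have h4 := hV0U (hV.add 0 _ h3 _ hv)
        simpa using h4
      obtain ⟨k, hk, hkx⟩ := hm x hxV
      have h5 : ((x - k : G) : G ⧸ N) ∈ S := hkx
      rwa [QuotientAddGroup.mk_sub, (QuotientAddGroup.eq_zero_iff k).2 hk, sub_zero] at h5
    · rintro ⟨n, -, hn⟩
      refine mem_of_superset (divSet_nhds ?_ n) hn
      rw [h1]
      exact image_mem_map (hVn 1)

/-- **Main theorem.** -/
theorem almostMinimal {G : Type} [AddCommGroup G] [UniformSpace G] [IsUniformAddGroup G]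
    [T2Space G] [CompleteSpace G] (hG : LocallyMinimal G) (hGTG : LocallyGTG G) :
    IsAlmostMinimal G ∧ ∃ N : AddSubgroup G, IsCompact (N : Set G) ∧ IsUFSS (G ⧸ N) := by
  obtain ⟨V₀, hV₀, hmin⟩ := hG
  obtain ⟨U, hU, hUV, hU2⟩ := hGTG V₀ hV₀
  obtain ⟨N, hN, hN2⟩ := compact_ufss V₀ hmin U hU hUV hU2
  have : CompactSpace N := isCompact_iff_compactSpace.mp hN
  exact ⟨⟨inferInstance, N, hN.isClosed, minimal_of_compact N, hN2⟩, N, hN, hN2⟩

end Q217.LM
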