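import Mathlib
import Pool.Agent.Q217.LM.Basic

/-!
# Passing from the kernel of a character to the whole compact subgroup
-/

set_option autoImplicit false

namespace Q217.LM

open Topology Filter Set Pool.Agent.H753R3.LM
open scoped Pointwise

/-- every element of the circle has a real representative of the same absolute value. -/
theorem exists_rep (a : AddCircle (1 : ℝ)) : ∃ r : ℝ, ((r : ℝ) : AddCircle (1 : ℝ)) = a ∧
    |r| = ‖a‖ := by
  obtain ⟨x, rfl⟩ := QuotientAddGroup.mk_surjective a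
  refine ⟨x - round x, ?_, ?_⟩
  · have h1 : ((round x : ℝ) : AddCircle (1 : ℝ)) = 0 := by
      rw [AddCircle.coe_eq_zero_iff]
      exact ⟨round x, by simp⟩
    rw [AddCircle.coe_sub, h1, sub_zero]
  · have h2 := AddCircle.norm_eq (1 : ℝ) (x := x)
    simp only [inv_one, one_mul, mul_one] at h2
    exact h2.symm

theorem norm_coe_le (r : ℝ) : ‖((r : ℝ) : AddCircle (1 : ℝ))‖ ≤ |r| := by
  have h2 := AddCircle.norm_eq (1 : ℝ) (x := r)
  simp only [inv_one, one_mul, mul_one] at h2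
  rw [h2]
  simpa using round_le r 0

theorem norm_double {a : AddCircle (1 : ℝ)} (ha : ‖a‖ ≤ 1 / 4) : ‖a + a‖ = 2 * ‖a‖ := by
  obtain ⟨r, rfl, hr⟩ := exists_rep a
  rw [← hr] at ha ⊢
  have h1 : ((r : ℝ) : AddCircle (1 : ℝ)) + ((r : ℝ) : AddCircle (1 : ℝ)) =
      ((2 * r : ℝ) : AddCircle (1 : ℝ)) := by
    rw [← AddCircle.coe_add]
    congr 1
    ring
  rw [h1, (AddCircle.norm_coe_eq_abs_iff (1 : ℝ) one_ne_zero).2, abs_mul, abs_two]
  rw [abs_mul, abs_two, abs_one]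
  linarith

/-- small elements of a closed subgroup of the circle can be halved inside the subgroup. -/
theorem halve (C : AddSubgroup (AddCircle (1 : ℝ))) (hC : IsClosed (C : Set (AddCircle (1 : ℝ)))) :
    ∃ δ > 0, ∀ c ∈ C, ‖c‖ ≤ δ → ∃ c' ∈ C, c' + c' = c ∧ ‖c'‖ ≤ ‖c‖ / 2 := by
  let C' : AddSubgroup ℝ := C.comap (QuotientAddGroup.mk' (AddSubgroup.zmultiples (1 : ℝ)))
  have hmem : ∀ r : ℝ, r ∈ C' ↔ ((r : ℝ) : AddCircle (1 : ℝ)) ∈ C := fun r => Iff.rfl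
  have hcl : IsClosed (C' : Set ℝ) := hC.preimage (AddCircle.continuous_mk' (1 : ℝ))
  rcases AddSubgroup.dense_or_cyclic C' with hd | ⟨a, ha⟩
  · refine ⟨1, one_pos, fun c hc _ => ?_⟩
    obtain ⟨r, rfl, hr⟩ := exists_rep c
    refine ⟨((r / 2 : ℝ) : AddCircle (1 : ℝ)), ?_, ?_, ?_⟩
    · rw [← hmem]
      have h1 : (C' : Set ℝ) = univ := by
        rw [← hcl.closure_eq]
        exact hd.closure_eq
      have h2 : r / 2 ∈ (C' : Set ℝ) := by rw [h1]; trivial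
      exact h2
    · rw [← AddCircle.coe_add]
      congr 1
      ring
    · refine (norm_coe_le _).trans ?_
      rw [abs_div, abs_two, hr]
  · have h1 : (1 : ℝ) ∈ C' := by
      rw [hmem]
      have h2 : ((1 : ℝ) : AddCircle (1 : ℝ)) = 0 := by
        rw [AddCircle.coe_eq_zero_iff]
        exact ⟨1, by simp⟩
      rw [h2]
      exact C.zero_mem
    have ha0 : a ≠ 0 := by
      rintro rfl
      rw [ha, AddSubgroup.mem_closure_singleton] at h1
      obtain ⟨n, hn⟩ := h1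
      simp at hn
    refine ⟨|a| / 2, by positivity, fun c hc hcn => ?_⟩
    obtain ⟨r, rfl, hr⟩ := exists_rep c
    have h2 : r ∈ C' := (hmem r).2 hc
    rw [ha, AddSubgroup.mem_closure_singleton] at h2
    obtain ⟨n, hn⟩ := h2
    have hn0 : n = 0 := by
      by_contra h
      have h3 : (1 : ℝ) ≤ |(n : ℝ)| := by
        rw [← Int.cast_abs]
        exact_mod_cast Int.one_le_abs h
      have h4 : |r| = |(n : ℝ)| * |a| := by
        rw [← hn, zsmul_eq_mul, abs_mul]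
      have h5 : 0 < |a| := abs_pos.2 ha0
      rw [← hr, h4] at hcn
      nlinarith
    have hr0 : r = 0 := by
      rw [← hn, hn0, zero_smul]
    subst hr0
    exact ⟨0, C.zero_mem, by simp, by simp⟩

/-- the backward recursion. -/
theorem backward (C : AddSubgroup (AddCircle (1 : ℝ))) (ε : ℝ) (hε : 0 ≤ ε)
    (hC : ∀ c ∈ C, ‖c‖ ≤ 2 * ε → ∃ c' ∈ C, c' + c' = c ∧ ‖c'‖ ≤ ‖c‖ / 2) :
    ∀ (N : ℕ) (e : ℕ → AddCircle (1 : ℝ)), (∀ j < N, e j ∈ C ∧ ‖e j‖ ≤ ε) →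
      ∃ b : ℕ → AddCircle (1 : ℝ), (∀ j ≤ N, b j ∈ C ∧ ‖b j‖ ≤ ε) ∧
        ∀ j < N, b (j + 1) = b j + b j + e j := by
  intro N
  induction N with
  | zero =>
    intro e _
    exact ⟨fun _ => 0, fun j _ => ⟨C.zero_mem, by simpa using hε⟩, fun j hj => by omega⟩
  | succ N ih =>
    intro e he
    obtain ⟨b, hb1, hb2⟩ := ih (fun j => e (j + 1)) (fun j hj => he (j + 1) (by omega))
    have h0 := hb1 0 (Nat.zero_le _)
    have he0 := he 0 (Nat.succ_pos _)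
    have h1 : ‖b 0 - e 0‖ ≤ 2 * ε := (norm_sub_le _ _).trans (by linarith [h0.2, he0.2])
    obtain ⟨c, hc1, hc2, hc3⟩ := hC (b 0 - e 0) (C.sub_mem h0.1 he0.1) h1
    refine ⟨fun j => Nat.rec c (fun i _ => b i) j, ?_, ?_⟩
    · intro j hj
      cases j with
      | zero => exact ⟨hc1, hc3.trans (by linarith)⟩
      | succ j => exact hb1 j (by omega)
    · intro j hj
      cases j with
      | zero =>
        show b 0 = c + c + e 0
        rw [hc2]
        abel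
      | succ j => exact hb2 j (by omega)

/-- `TBP` passes from the kernel of a character to the whole compact subgroup. -/
theorem step {G : Type} [AddCommGroup G] [TopologicalSpace G] [IsTopologicalAddGroup G]
    [T2Space G] (K' K'' : AddSubgroup G) (hK' : IsCompact (K' : Set G))
    (χ : G → AddCircle (1 : ℝ)) (hadd : ∀ x ∈ K', ∀ y ∈ K', χ (x + y) = χ x + χ y)
    (hc : ContinuousOn χ K') (hK'' : ∀ x, x ∈ K'' ↔ x ∈ K' ∧ χ x = 0) (h : TBP K'') :
    TBP K' := by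
  classical
  obtain ⟨W'', hWo, hKW, hW''⟩ := h
  -- basic facts on `χ`
  have χ0 : χ 0 = 0 := by
    have := hadd 0 K'.zero_mem 0 K'.zero_mem
    simpa using this
  have χneg : ∀ x ∈ K', χ (-x) = - χ x := by
    intro x hx
    have h1 := hadd x hx (-x) (K'.neg_mem hx)
    rw [add_neg_cancel, χ0] at h1
    exact (neg_eq_of_add_eq_zero_right h1.symm).symm
  have χsub : ∀ x ∈ K', ∀ y ∈ K', χ (x - y) = χ x - χ y := by
    intro x hx y hy
    rw [sub_eq_add_neg, hadd x hx _ (K'.neg_mem hy), χneg y hy, sub_eq_add_neg]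
  have χzsmul : ∀ (m : ℕ), ∀ x ∈ K', χ ((m : ℤ) • x) = (m : ℤ) • χ x := by
    intro m x hx
    induction m with
    | zero => simpa using χ0
    | succ m ih =>
      have h1 : (((m + 1 : ℕ) : ℤ)) = (m : ℤ) + 1 := by push_cast; ring
      rw [h1, add_smul, add_smul, one_smul, one_smul, hadd _ (K'.zsmul_mem hx _) _ hx, ih]
  -- the image
  let C : AddSubgroup (AddCircle (1 : ℝ)) :=
    { carrier := χ '' K'
      zero_mem' := ⟨0, K'.zero_mem, χ0⟩
      add_mem' := by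
        rintro _ _ ⟨x, hx, rfl⟩ ⟨y, hy, rfl⟩
        exact ⟨x + y, K'.add_mem hx hy, hadd x hx y hy⟩
      neg_mem' := by
        rintro _ ⟨x, hx, rfl⟩
        exact ⟨-x, K'.neg_mem hx, χneg x hx⟩ }
  have hCcl : IsClosed (C : Set (AddCircle (1 : ℝ))) := (hK'.image_of_continuousOn hc).isClosed
  obtain ⟨δ₀, hδ₀, hhalf⟩ := halve C hCcl
  -- elements with small `χ` are in `W''`
  obtain ⟨δ₁, hδ₁, hδ₁W⟩ : ∃ δ₁ > 0, ∀ k ∈ K', ‖χ k‖ ≤ δ₁ → k ∈ W'' := by
    have hD : IsCompact ((K' : Set G) \ W'') := hK'.diff hWo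
    rcases Set.eq_empty_or_nonempty ((K' : Set G) \ W'') with he | hne
    · refine ⟨1, one_pos, fun k hk _ => ?_⟩
      by_contra hkW
      have : k ∈ (K' : Set G) \ W'' := ⟨hk, hkW⟩
      rw [he] at this
      exact this
    · obtain ⟨k₀, hk₀, hmin⟩ := hD.exists_isMinOn hne ((hc.mono sdiff_subset).norm)
      have hpos : 0 < ‖χ k₀‖ := by
        rw [norm_pos_iff]
        intro h0
        exact hk₀.2 (hKW ((hK'' k₀).2 ⟨hk₀.1, h0⟩))
      refine ⟨‖χ k₀‖ / 2, by positivity, fun k hk hkn => ?_⟩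
      by_contra hkW
      have h1 := isMinOn_iff.1 hmin k ⟨hk, hkW⟩
      linarith
  obtain ⟨δ, hδ, hδa, hδb, hδc⟩ : ∃ δ : ℝ, 0 < δ ∧ δ ≤ δ₀ ∧ δ ≤ δ₁ ∧ δ ≤ 1 / 8 :=
    ⟨min δ₀ (min δ₁ (1 / 8)), by positivity, min_le_left _ _,
      (min_le_right _ _).trans (min_le_left _ _), (min_le_right _ _).trans (min_le_right _ _)⟩
  set ε : ℝ := δ / 5 with hε
  have hε0 : 0 < ε := by positivity
  -- the compact set `K₁`
  let K₁ : Set G := {k | k ∈ K' ∧ ‖χ k‖ ≤ δ}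
  have hK₁ : IsCompact K₁ := by
    obtain ⟨F, hF, hF2⟩ := (continuousOn_iff_isClosed.1 hc.norm) (Iic δ) isClosed_Iic
    have h1 : K₁ = (K' : Set G) ∩ F := by
      ext k
      have h2 : k ∈ (fun x => ‖χ x‖) ⁻¹' Iic δ ∩ (K' : Set G) ↔ k ∈ F ∩ (K' : Set G) := by
        rw [hF2]
      constructor
      · rintro ⟨hk, hkn⟩
        exact ⟨hk, (h2.1 ⟨hkn, hk⟩).1⟩
      · rintro ⟨hk, hkF⟩
        exact ⟨hk, (h2.2 ⟨hkF, hk⟩).1⟩
    rw [h1]
    exact hK'.inter_right hF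
  have hK₁W : K₁ ⊆ W'' := fun k hk => hδ₁W k hk.1 (hk.2.trans hδb)
  obtain ⟨U₁, hU₁, hU₁W⟩ := compact_open_separated_add_right hK₁ hWo hK₁W
  obtain ⟨U₂, hU₂, hU₂χ⟩ : ∃ U₂ ∈ 𝓝 (0 : G), ∀ k ∈ K', k ∈ U₂ → ‖χ k‖ ≤ ε := by
    have h1 : ContinuousWithinAt (fun x => ‖χ x‖) K' 0 := (hc 0 K'.zero_mem).norm
    have h2 : {x | ‖χ x‖ < ε} ∈ 𝓝[(K' : Set G)] (0 : G) := by
      refine h1.eventually (Iio_mem_nhds ?_)
      show ‖χ 0‖ < ε
      rw [χ0, norm_zero]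
      exact hε0
    rw [mem_nhdsWithin_iff_exists_mem_nhds_inter] at h2
    obtain ⟨u, hu, hu2⟩ := h2
    exact ⟨u, hu, fun k hk hku => (hu2 ⟨hku, hk⟩).le⟩
  obtain ⟨S, hS, hSn, hS0⟩ := exists_chain (U₁ ∩ U₂) (inter_mem hU₁ hU₂)
  set U : Set G := S 2 with hU
  have hUn : U ∈ 𝓝 (0 : G) := hSn 2
  have hUU₁ : U ⊆ U₁ := fun x hx => (hS0 (hS.anti (Nat.zero_le 2) hx)).1
  have hU3 : ∀ x ∈ U, ∀ y ∈ U, ∀ z ∈ U, x + y - z ∈ U₂ := by
    intro x hx y hy z hz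
    refine (hS0 ?_).2
    exact hS.sub 0 (hS.add 1 x hx y hy) (hS.succ_subset 1 hz)
  have hUneg : ∀ x ∈ U, -x ∈ U := hS.neg 2
  refine ⟨(K' : Set G) + interior U, isOpen_interior.add_left, ?_, ?_⟩
  · intro k hk
    have h1 : k + 0 ∈ (K' : Set G) + interior U :=
      add_mem_add hk (mem_interior_iff_mem_nhds.2 hUn)
    simpa using h1
  intro V' hV' hV'n hinv hV'0 U₃ hU₃
  have hdec : ∀ x ∈ V' 0, ∃ k ∈ K', x - k ∈ U := by
    intro x hx
    obtain ⟨k, hk, u, hu, rfl⟩ := hV'0 hx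
    refine ⟨k, hk, ?_⟩
    have h1 : (fun x1 x2 => x1 + x2) k u - k = u := by
      simp only
      abel
    rw [h1]
    exact interior_subset hu
  have hpow : ∀ (n j : ℕ), j ≤ n → ∀ x ∈ V' n, (2 : ℤ) ^ j • x ∈ V' 0 := by
    intro n j hj x hx
    refine hV'.zsmul_mem j 0 ((2 : ℤ) ^ j) x (by rw [abs_of_nonneg (by positivity)]) ?_
    rw [zero_add]
    exact hV'.anti hj hx
  -- the new chain
  let V : ℕ → Set G := fun n =>
    {x | x ∈ V' (2 * n) ∧ ∀ j ≤ 2 * n, ∃ k ∈ K', ‖χ k‖ ≤ δ ∧ (2 : ℤ) ^ j • x - k ∈ U}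
  have hA : ∀ n, ∀ x ∈ V (n + 1), ∀ j ≤ 2 * n, ∃ k ∈ K', ‖χ k‖ ≤ δ / 4 + 3 * ε / 4 ∧
      (2 : ℤ) ^ j • x - k ∈ U := by
    intro n x hx j hj
    have hx2 := hx.2
    obtain ⟨k₀, hk₀, hk₀n, hk₀U⟩ := hx2 j (by omega)
    obtain ⟨k₁, hk₁, hk₁n, hk₁U⟩ := hx2 (j + 1) (by omega)
    obtain ⟨k₂, hk₂, hk₂n, hk₂U⟩ := hx2 (j + 2) (by omega)
    have h1 : ‖χ k₁ - (χ k₀ + χ k₀)‖ ≤ ε := by
      have e1 : k₁ - (k₀ + k₀) ∈ U₂ := by
        have := hU3 _ hk₀U _ hk₀U _ hk₁U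
        have e2 : (2 : ℤ) ^ j • x - k₀ + ((2 : ℤ) ^ j • x - k₀) - ((2 : ℤ) ^ (j + 1) • x - k₁)
            = k₁ - (k₀ + k₀) := by
          rw [pow_succ, mul_comm, mul_smul, two_smul]
          abel
        rwa [e2] at this
      have e3 := hU₂χ _ (K'.sub_mem hk₁ (K'.add_mem hk₀ hk₀)) e1
      rwa [χsub _ hk₁ _ (K'.add_mem hk₀ hk₀), hadd _ hk₀ _ hk₀] at e3
    have h2 : ‖χ k₂ - (χ k₁ + χ k₁)‖ ≤ ε := by
      have e1 : k₂ - (k₁ + k₁) ∈ U₂ := by
        have := hU3 _ hk₁U _ hk₁U _ hk₂U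
        have e2 : (2 : ℤ) ^ (j + 1) • x - k₁ + ((2 : ℤ) ^ (j + 1) • x - k₁)
            - ((2 : ℤ) ^ (j + 2) • x - k₂) = k₂ - (k₁ + k₁) := by
          have e4 : (2 : ℤ) ^ (j + 2) = 2 * (2 : ℤ) ^ (j + 1) := by ring
          rw [e4, mul_smul, two_smul]
          abel
        rwa [e2] at this
      have e3 := hU₂χ _ (K'.sub_mem hk₂ (K'.add_mem hk₁ hk₁)) e1
      rwa [χsub _ hk₂ _ (K'.add_mem hk₁ hk₁), hadd _ hk₁ _ hk₁] at e3
    have hd0 : ‖χ k₀ + χ k₀‖ = 2 * ‖χ k₀‖ := norm_double (by linarith)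
    have hd1 : ‖χ k₁ + χ k₁‖ = 2 * ‖χ k₁‖ := norm_double (by linarith)
    have h3 : ‖χ k₀ + χ k₀‖ ≤ ‖χ k₁‖ + ‖χ k₁ - (χ k₀ + χ k₀)‖ := by
      have e5 : χ k₀ + χ k₀ = χ k₁ - (χ k₁ - (χ k₀ + χ k₀)) := by abel
      calc ‖χ k₀ + χ k₀‖ = ‖χ k₁ - (χ k₁ - (χ k₀ + χ k₀))‖ := by rw [← e5]
        _ ≤ _ := norm_sub_le _ _
    have h4 : ‖χ k₁ + χ k₁‖ ≤ ‖χ k₂‖ + ‖χ k₂ - (χ k₁ + χ k₁)‖ := by
      have e5 : χ k₁ + χ k₁ = χ k₂ - (χ k₂ - (χ k₁ + χ k₁)) := by abel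
      calc ‖χ k₁ + χ k₁‖ = ‖χ k₂ - (χ k₂ - (χ k₁ + χ k₁))‖ := by rw [← e5]
        _ ≤ _ := norm_sub_le _ _
    refine ⟨k₀, hk₀, ?_, hk₀U⟩
    rw [hd0] at h3
    rw [hd1] at h4
    linarith
  have hV : Chain V := by
    refine ⟨fun n => ⟨hV'.zero _, fun j _ => ⟨0, K'.zero_mem, ?_, ?_⟩⟩, fun n x hx => ?_,
      fun n x hx y hy => ?_⟩
    · rw [χ0, norm_zero]
      exact hδ.le
    · rw [smul_zero, sub_zero]
      exact mem_of_mem_nhds hUn
    · refine ⟨hV'.neg _ x hx.1, fun j hj => ?_⟩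
      obtain ⟨k, hk, hkn, hkU⟩ := hx.2 j hj
      refine ⟨-k, K'.neg_mem hk, by rwa [χneg k hk, norm_neg], ?_⟩
      have h1 := hUneg _ hkU
      have h2 : -((2 : ℤ) ^ j • x - k) = (2 : ℤ) ^ j • -x - -k := by
        rw [smul_neg]
        abel
      rwa [h2] at h1
    · have hx1 : x ∈ V' (2 * n + 1 + 1) := hx.1
      have hy1 : y ∈ V' (2 * n + 1 + 1) := hy.1
      have hxy := hV'.add (2 * n + 1) x hx1 y hy1
      refine ⟨hV'.succ_subset _ hxy, fun j hj => ?_⟩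
      obtain ⟨k, hk, hkn, hkU⟩ := hA n x hx j hj
      obtain ⟨l, hl, hln, hlU⟩ := hA n y hy j hj
      obtain ⟨m, hm, hmU⟩ := hdec _ (hpow (2 * n + 1) j (by omega) _ hxy)
      refine ⟨m, hm, ?_, hmU⟩
      have e1 : m - (k + l) ∈ U₂ := by
        have := hU3 _ hkU _ hlU _ hmU
        have e2 : (2 : ℤ) ^ j • x - k + ((2 : ℤ) ^ j • y - l) - ((2 : ℤ) ^ j • (x + y) - m)
            = m - (k + l) := by
          rw [smul_add]
          abel
        rwa [e2] at this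
      have e3 := hU₂χ _ (K'.sub_mem hm (K'.add_mem hk hl)) e1
      rw [χsub _ hm _ (K'.add_mem hk hl), hadd _ hk _ hl] at e3
      have e4 : χ m = (χ m - (χ k + χ l)) + (χ k + χ l) := by abel
      have e5 : ‖χ m‖ ≤ ‖χ m - (χ k + χ l)‖ + ‖χ k + χ l‖ := by
        calc ‖χ m‖ = ‖(χ m - (χ k + χ l)) + (χ k + χ l)‖ := by rw [← e4]
          _ ≤ _ := norm_add_le _ _
      have e6 := norm_add_le (χ k) (χ l)
      rw [hε] at *
      linarith
  have hVn : ∀ n, V n ∈ 𝓝 (0 : G) := by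
    intro n
    have h1 : ∀ᶠ x in 𝓝 (0 : G), ∀ j ∈ Finset.range (2 * n + 1), (2 : ℤ) ^ j • x ∈ U := by
      rw [Filter.eventually_all_finset]
      intro j _
      have h2 : Tendsto (fun x : G => (2 : ℤ) ^ j • x) (𝓝 0) (𝓝 0) := by
        have h3 : Continuous (fun x : G => (2 : ℤ) ^ j • x) := by fun_prop
        have h4 := h3.tendsto 0
        rwa [smul_zero] at h4
      exact h2 hUn
    filter_upwards [hV'n (2 * n), h1] with x hx1 hx2
    refine ⟨hx1, fun j hj => ⟨0, K'.zero_mem, ?_, ?_⟩⟩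
    · rw [χ0, norm_zero]
      exact hδ.le
    · rw [sub_zero]
      exact hx2 j (Finset.mem_range.2 (by omega))
  have hVinv : ∀ n, ∀ x ∈ V n, ∀ l ∈ K'', x + l ∈ V n := by
    intro n x hx l hl
    obtain ⟨hl1, hl2⟩ := (hK'' l).1 hl
    refine ⟨hinv _ x hx.1 l hl1, fun j hj => ?_⟩
    obtain ⟨k, hk, hkn, hkU⟩ := hx.2 j hj
    refine ⟨k + (2 : ℤ) ^ j • l, K'.add_mem hk (K'.zsmul_mem hl1 _), ?_, ?_⟩
    · have h1 := χzsmul (2 ^ j) l hl1
      push_cast at h1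
      rw [hadd _ hk _ (K'.zsmul_mem hl1 _), h1, hl2, smul_zero, add_zero]
      exact hkn
    · have h1 : (2 : ℤ) ^ j • (x + l) - (k + (2 : ℤ) ^ j • l) = (2 : ℤ) ^ j • x - k := by
        rw [smul_add]
        abel
      rwa [h1]
  have hV0 : V 0 ⊆ W'' := by
    intro x hx
    obtain ⟨k, hk, hkn, hkU⟩ := hx.2 0 (Nat.zero_le _)
    rw [pow_zero, one_smul] at hkU
    have h1 : k + (x - k) ∈ W'' :=
      hU₁W (add_mem_add (show k ∈ K₁ from ⟨hk, hkn⟩) (hUU₁ hkU))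
    simpa using h1
  obtain ⟨U₄, hU₄, hU₄2⟩ := exists_nhds_zero_half hU₃
  obtain ⟨n, F₁, hF₁⟩ := hW'' V hV hVn hVinv hV0 U₄ hU₄
  -- finite cover of `K'`
  obtain ⟨F₂, hF₂⟩ : Sml (K' : Set G) U₄ := by
    obtain ⟨t, -, ht⟩ := hK'.elim_nhds_subcover (fun x => {y | y - x ∈ U₄}) (by
      intro x _
      have h2 : Tendsto (fun y : G => y - x) (𝓝 x) (𝓝 0) := by
        have h3 : Continuous (fun y : G => y - x) := by fun_prop
        have h4 := h3.tendsto x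
        rwa [sub_self] at h4
      exact h2 hU₄)
    refine ⟨t, fun x hx => ?_⟩
    obtain ⟨f, hf, hfx⟩ := mem_iUnion₂.1 (ht hx)
    exact ⟨f, hf, hfx⟩
  refine ⟨2 * n, Finset.image₂ (fun a b => a + b) F₁ F₂, ?_⟩
  intro x₀ hx₀
  -- correct `x₀` by an element of `K'`
  have hkex : ∀ j : ℕ, ∃ k : G, j ≤ 2 * n → k ∈ K' ∧ (2 : ℤ) ^ j • x₀ - k ∈ U := by
    intro j
    by_cases hj : j ≤ 2 * n
    · obtain ⟨k, hk, hkU⟩ := hdec _ (hpow (2 * n) j hj _ hx₀)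
      exact ⟨k, fun _ => ⟨hk, hkU⟩⟩
    · exact ⟨0, fun h => absurd h hj⟩
  choose k hk using hkex
  have he : ∀ j < 2 * n, χ (k (j + 1)) - (χ (k j) + χ (k j)) ∈ C ∧
      ‖χ (k (j + 1)) - (χ (k j) + χ (k j))‖ ≤ ε := by
    intro j hj
    obtain ⟨hk0, hk0U⟩ := hk j hj.le
    obtain ⟨hk1, hk1U⟩ := hk (j + 1) hj
    have e0 : χ (k (j + 1) - (k j + k j)) = χ (k (j + 1)) - (χ (k j) + χ (k j)) := by
      rw [χsub _ hk1 _ (K'.add_mem hk0 hk0), hadd _ hk0 _ hk0]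
    refine ⟨⟨k (j + 1) - (k j + k j), K'.sub_mem hk1 (K'.add_mem hk0 hk0), e0⟩, ?_⟩
    have e1 : k (j + 1) - (k j + k j) ∈ U₂ := by
      have := hU3 _ hk0U _ hk0U _ hk1U
      have e2 : (2 : ℤ) ^ j • x₀ - k j + ((2 : ℤ) ^ j • x₀ - k j)
          - ((2 : ℤ) ^ (j + 1) • x₀ - k (j + 1)) = k (j + 1) - (k j + k j) := by
        rw [pow_succ, mul_comm, mul_smul, two_smul]
        abel
      rwa [e2] at this
    have e3 := hU₂χ _ (K'.sub_mem hk1 (K'.add_mem hk0 hk0)) e1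
    rwa [e0] at e3
  obtain ⟨b, hb1, hb2⟩ := backward C ε hε0.le (fun c hc hcn => hhalf c hc (hcn.trans (by
    rw [hε]
    linarith))) (2 * n) (fun j => χ (k (j + 1)) - (χ (k j) + χ (k j))) he
  obtain ⟨t, ht, htχ⟩ : b 0 - χ (k 0) ∈ C :=
    C.sub_mem (hb1 0 (Nat.zero_le _)).1 ⟨k 0, (hk 0 (Nat.zero_le _)).1, rfl⟩
  have hbj : ∀ j ≤ 2 * n, χ (k j + (2 : ℤ) ^ j • t) = b j := by
    intro j
    induction j with
    | zero =>
      intro _
      rw [pow_zero, one_smul, hadd _ (hk 0 (Nat.zero_le _)).1 _ ht, htχ]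
      abel
    | succ j ih =>
      intro hj
      have h1 := ih (by omega)
      have hkj := (hk j (by omega)).1
      have hkj1 := (hk (j + 1) hj).1
      have h2 : χ ((2 : ℤ) ^ (j + 1) • t) = χ ((2 : ℤ) ^ j • t) + χ ((2 : ℤ) ^ j • t) := by
        rw [← hadd _ (K'.zsmul_mem ht _) _ (K'.zsmul_mem ht _), pow_succ, mul_comm, mul_smul,
          two_smul]
      rw [hadd _ hkj _ (K'.zsmul_mem ht _)] at h1
      rw [hadd _ hkj1 _ (K'.zsmul_mem ht _), h2, hb2 j (by omega), ← h1]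
      abel
  have hxt : x₀ + t ∈ V n := by
    refine ⟨hinv _ x₀ hx₀ t ht, fun j hj => ?_⟩
    obtain ⟨hkj, hkjU⟩ := hk j hj
    refine ⟨k j + (2 : ℤ) ^ j • t, K'.add_mem hkj (K'.zsmul_mem ht _), ?_, ?_⟩
    · rw [hbj j hj]
      refine (hb1 j hj).2.trans ?_
      rw [hε]
      linarith
    · have h1 : (2 : ℤ) ^ j • (x₀ + t) - (k j + (2 : ℤ) ^ j • t) = (2 : ℤ) ^ j • x₀ - k j := by
        rw [smul_add]
        abel
      rwa [h1]
  obtain ⟨f₁, hf₁, hf₁U⟩ := hF₁ _ hxt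
  obtain ⟨f₂, hf₂, hf₂U⟩ := hF₂ (-t) (K'.neg_mem ht)
  refine ⟨f₁ + f₂, Finset.mem_image₂.2 ⟨f₁, hf₁, f₂, hf₂, rfl⟩, ?_⟩
  have h1 := hU₄2 _ hf₁U _ hf₂U
  have h2 : x₀ + t - f₁ + (-t - f₂) = x₀ - (f₁ + f₂) := by abel
  rwa [h2] at h1

/-- `TBP` holds for every compact subgroup of a complete locally minimal group. -/
theorem tbp {G : Type} [AddCommGroup G] [UniformSpace G] [IsUniformAddGroup G] [T2Space G]
    [CompleteSpace G] (hG : LocallyMinimal G) (K : AddSubgroup G) (hK : IsCompact (K : Set G)) :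
    TBP K := by
  classical
  obtain ⟨V₀, hV₀, hmin⟩ := hG
  have : CompactSpace K := isCompact_iff_compactSpace.mp hK
  -- characters of `K`
  have hχ : ∀ g : K, ∃ χ : K →+ AddCircle (1 : ℝ), Continuous χ ∧ (g ≠ 0 → χ g ≠ 0) := by
    intro g
    by_cases hg : g = 0
    · exact ⟨0, continuous_zero, fun h => absurd hg h⟩
    · obtain ⟨χ, hχ1, hχ2⟩ := Pool.Agent.H428R3.LMT6.taskT6 K g hg
      refine ⟨χ, hχ1, fun _ h => ?_⟩
      rw [h, norm_zero] at hχ2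
      linarith
  choose χ hχc hχg using hχ
  let L : Finset K → AddSubgroup G := fun S => (⨅ g ∈ S, (χ g).ker).map K.subtype
  have hL : ∀ S x, x ∈ L S ↔ ∃ h : x ∈ K, ∀ g ∈ S, χ g ⟨x, h⟩ = 0 := by
    intro S x
    simp only [L, AddSubgroup.mem_map, AddSubgroup.mem_iInf, AddMonoidHom.mem_ker]
    constructor
    · rintro ⟨y, hy, rfl⟩
      exact ⟨y.2, fun g hg => hy g hg⟩
    · rintro ⟨h, hx⟩
      exact ⟨⟨x, h⟩, hx, rfl⟩
  have hLc : ∀ S, IsCompact (L S : Set G) := by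
    intro S
    have h1 : (L S : Set G) = Subtype.val '' {y : K | ∀ g ∈ S, χ g y = 0} := by
      ext x
      rw [SetLike.mem_coe, hL]
      constructor
      · rintro ⟨h, hx⟩
        exact ⟨⟨x, h⟩, hx, rfl⟩
      · rintro ⟨y, hy, rfl⟩
        exact ⟨y.2, hy⟩
    rw [h1]
    refine IsCompact.image ?_ continuous_subtype_val
    refine IsClosed.isCompact ?_
    have h2 : {y : K | ∀ g ∈ S, χ g y = 0} = ⋂ g ∈ S, {y : K | χ g y = 0} := by
      ext y
      simp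
    rw [h2]
    exact isClosed_biInter fun g _ => isClosed_eq (hχc g) continuous_const
  -- induction
  have hind : ∀ S : Finset K, TBP (L S) → TBP K := by
    intro S
    induction S using Finset.induction_on with
    | empty =>
      intro h
      have h1 : L ∅ = K := by
        ext x
        rw [hL]
        simp
      rwa [h1] at h
    | insert g S _ ih =>
      intro h
      apply ih
      refine step (L S) (L (insert g S)) (hLc S)
        (fun x => if h : x ∈ K then χ g ⟨x, h⟩ else 0) ?_ ?_ ?_ h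
      · intro x hx y hy
        obtain ⟨hx1, -⟩ := (hL S x).1 hx
        obtain ⟨hy1, -⟩ := (hL S y).1 hy
        simp only [dif_pos hx1, dif_pos hy1, dif_pos (K.add_mem hx1 hy1)]
        rw [← map_add]
        rfl
      · have hsub : (L S : Set G) ⊆ (K : Set G) := fun x hx => ((hL S x).1 hx).1
        refine ContinuousOn.mono ?_ hsub
        rw [continuousOn_iff_continuous_restrict]
        refine (hχc g).congr fun y => ?_
        show χ g y = if h : (y : G) ∈ K then χ g ⟨y, h⟩ else 0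
        rw [dif_pos y.2]
      · intro x
        rw [hL, hL]
        constructor
        · rintro ⟨hx, hx2⟩
          refine ⟨⟨hx, fun g' hg' => hx2 g' (Finset.mem_insert_of_mem hg')⟩, ?_⟩
          rw [dif_pos hx]
          exact hx2 g (Finset.mem_insert_self _ _)
        · rintro ⟨⟨hx, hx2⟩, hx3⟩
          rw [dif_pos hx] at hx3
          refine ⟨hx, fun g' hg' => ?_⟩
          rcases Finset.mem_insert.1 hg' with rfl | h
          · exact hx3
          · exact hx2 g' h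
  -- the compact set outside
  obtain ⟨S, hS⟩ : ∃ S : Finset K, (L S : Set G) ⊆ interior V₀ := by
    have hD : IsCompact {y : K | (y : G) ∉ interior V₀} := by
      refine IsClosed.isCompact ?_
      exact (isOpen_interior.preimage continuous_subtype_val).isClosed_compl
    obtain ⟨t, -, ht⟩ := hD.elim_nhds_subcover (fun g => {y : K | χ g y ≠ 0}) (by
      intro g hg
      refine (isOpen_ne_fun (hχc g) continuous_const).mem_nhds ?_
      refine hχg g ?_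
      rintro rfl
      exact hg (mem_interior_iff_mem_nhds.2 hV₀))
    refine ⟨t, fun x hx => ?_⟩
    obtain ⟨hxK, hx2⟩ := (hL t x).1 hx
    by_contra hxV
    obtain ⟨g, hg, hgx⟩ := mem_iUnion₂.1 (ht (show (⟨x, hxK⟩ : K) ∈ _ from hxV))
    exact hgx (hx2 g hg)
  refine hind S ⟨interior V₀, isOpen_interior, hS, ?_⟩
  intro V hV hVn _ hV0 U hU
  exact tb G V₀ hmin V hV hVn (hV0.trans interior_subset) U hU

/-- **Main theorem**: the quotient of a complete locally minimal abelian group by a compact subgroup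
is locally minimal. -/
theorem main {G : Type} [AddCommGroup G] [UniformSpace G] [IsUniformAddGroup G] [T2Space G]
    [CompleteSpace G] (hG : LocallyMinimal G) (K : AddSubgroup G) (hK : IsCompact (K : Set G)) :
    LocallyMinimal (G ⧸ K) :=
  locMin_quot K hK (tbp hG K hK)

end Q217.LM
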